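import Mathlib
import Pool.Agent.W534.FS9
import Pool.Agent.Y218.NPDefs
import Pool.Agent.Y218.NPd
import Pool.Agent.Y218.PEb

/-!
# Polarized endomorphisms of ordinary K3 surfaces, and of surfaces with simple slopes less than one

Let `X` be a smooth projective surface over the field with `q = p^a` elements (a surface over the
algebraic closure of `𝔽_p`, and an endomorphism of it, are defined over such a field) and `f` a
polarized endomorphism of `X`, `f^* H ~ Q H`. We show that `f^*` is diagonalizable on
`H²(X̄, ℚ̄_ℓ)` if the eigenvalues of the Frobenius which are not `q` times a root of unity are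
simple and at most `ρ(X̄) + 2` eigenvalues are `q` times a root of unity. This is so for all ordinary
K3 surfaces (`p_g = 1`, and by the Tate conjecture, which is known for K3 surfaces, the number of the
latter eigenvalues is `ρ(X̄)`), and for K3 surfaces of height `h` prime to `a`. On the divisor
classes the Hodge index theorem is used, on the non-Tate part the Frobenius, and on the rest, of
dimension at most two, the cup product.
-/

set_option autoImplicit false

open Polynomial Module W534.FS Pool.Agent.Y218

namespace Pool.Agent.Results.MP_e95b71_ag.OrdinaryK3Surfaces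

variable {p a : ℕ} {K V : Type*} [Field K] [AddCommGroup V] [Module K V] [Module.Finite K V]

/-- A polarized endomorphism `f` of the surface `X`, defined over the field with `q = p^a` elements,
acting on `V = H²(X̄, K)` and on `Λ = NS(X̄) ⊗ ℚ` (modulo numerical equivalence), with its known
properties. -/
structure PolarizedEnd (X : SurfaceH2 p a K V) (Λ : Type*) [AddCommGroup Λ] [Module ℚ Λ]
    [Module.Finite ℚ Λ] where
  /-- the pullback `f^*` on `H²` -/
  f : Module.End K V
  /-- `f` is defined over the field with `q` elements: it commutes with the Frobenius -/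
  comm : Commute f X.F
  /-- the multiplier of the polarization -/
  Q : ℕ
  /-- it is at least two -/
  two_le : 2 ≤ Q
  /-- `f` has degree `Q²`, by which it acts on `H⁴` -/
  B_f : ∀ x y, X.B (f x) (f y) = (Q : K) ^ 2 * X.B x y
  /-- the cycle class map -/
  cl : Λ →+ V
  /-- it is `ℚ`-linear -/
  cl_smul : ∀ (t : ℚ) (x : Λ), cl (t • x) = (t : K) • cl x
  /-- `N` is the span of the divisor classes -/
  span_cl : Submodule.span K (Set.range cl) = X.N
  /-- the intersection form -/
  b : LinearMap.BilinForm ℚ Λ
  /-- the cup product of divisor classes is the intersection number -/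
  b_cl : ∀ x y, X.B (cl x) (cl y) = (b x y : K)
  /-- the pullback of divisors -/
  φ : Module.End ℚ Λ
  /-- it is compatible with the cycle class map -/
  cl_φ : ∀ x, f (cl x) = cl (φ x)
  /-- the ample divisor -/
  H : Λ
  /-- `f^* H ~ Q H` -/
  φ_H : φ H = (Q : ℚ) • H
  /-- it has positive self-intersection -/
  H_pos : 0 < b H H
  /-- the Hodge index theorem -/
  index : ∀ x, b H x = 0 → x ≠ 0 → b x x < 0

/-- **Polarized endomorphisms act semisimply on `H²` of ordinary K3 surfaces, and of surfaces with
simple slopes less than one.** -/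
theorem result [Fact p.Prime] (ha : 0 < a) [CharZero K] [IsAlgClosed K] (X : SurfaceH2 p a K V)
    {Λ : Type*} [AddCommGroup Λ] [Module ℚ Λ] [Module.Finite ℚ Λ] (E : PolarizedEnd X Λ)
    -- at most `ρ(X̄) + 2` eigenvalues of the Frobenius are `q` times a root of unity
    (hF : X.FewTate ∨ NP.len p a 1 X.P ≤ finrank K X.N + 2)
    -- the other ones are simple, for instance by one of three criteria
    (hs : (∀ α, ¬ IsTate p a α → X.mult α ≤ 1) ∨
      (X.pg = 1 ∧ X.Ordinary) ∨ (∃ h, X.Height h ∧ Nat.gcd a h = 1) ∨ NP.ResMult p a X.P 1) :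
    -- `f^*` is diagonalizable on `H²`
    (∀ α, E.f.maxGenEigenspace α = E.f.eigenspace α) ∧ ⨆ α, E.f.eigenspace α = ⊤ := by
  classical
  have hp : p.Prime := Fact.out
  have hFT : X.FewTate := by
    rcases hF with h | h
    · exact h
    · intro m hm
      exact (NP.finrank_tate hp X.F X.charpoly_F X.monic hm).trans h
  have hm : ∀ α, ¬ IsTate p a α → X.mult α ≤ 1 := by
    intro α hα
    rcases Nat.eq_zero_or_pos (X.mult α) with h0 | h0
    · rw [h0]; exact Nat.zero_le _
    have he := X.eigenvalue_of_mult h0
    rcases hs with hs | ⟨h1, h2⟩ | ⟨h, h1, h2⟩ | hs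
    · exact hs α hα
    · have h3 := X.sum_mult hp ha (g := X.pg) (Or.inr ⟨h2, rfl⟩) {α} (by simp [he, hα]) (by simp)
      rw [Finset.sum_singleton, h1] at h3
      exact h3
    · have h3 := X.sum_mult_height hp ha h1 {α} (by simp [he, hα]) (by simp)
      rw [Finset.sum_singleton, h2] at h3
      exact h3
    · rw [X.mult_eq]
      exact NP.mult_le_of_resMult X.monic hs (X.root he) (X.notInt hp he hα)
  have hQ0 : (E.Q : ℚ) ≠ 0 := by
    have := E.two_le
    exact_mod_cast (by omega : E.Q ≠ 0)
  have hQK : (E.Q : K) ≠ 0 := by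
    have := E.two_le
    exact_mod_cast (by omega : E.Q ≠ 0)
  have hbs : ∀ x y, E.b x y = E.b y x := by
    intro x y
    have h1 := X.B_symm (E.cl x) (E.cl y)
    rw [E.b_cl, E.b_cl] at h1
    exact_mod_cast h1
  have hbφ : ∀ x y, E.b (E.φ x) (E.φ y) = (E.Q : ℚ) ^ 2 * E.b x y := by
    intro x y
    have h1 := E.B_f (E.cl x) (E.cl y)
    rw [E.cl_φ, E.cl_φ, E.b_cl, E.b_cl] at h1
    exact_mod_cast h1
  have hφ : E.φ.IsSemisimple :=
    PE.semisimple_of_index E.φ E.b hbs E.H_pos E.index hQ0 E.φ_H hbφ
  have hfN : ∀ x ∈ X.N, E.f x ∈ X.N := by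
    have h1 : X.N ≤ X.N.comap E.f := by
      rw [← E.span_cl, Submodule.span_le]
      rintro _ ⟨x, rfl⟩
      change E.f (E.cl x) ∈ Submodule.span K (Set.range E.cl)
      rw [E.cl_φ]
      exact Submodule.subset_span ⟨_, rfl⟩
    exact h1
  have hN : ∀ α : K, ∀ n ∈ X.N, ∀ v, E.f n = α • n + v → E.f v = α • v → v = 0 := by
    intro α n hn v h1 h2
    rw [← E.span_cl] at hn
    exact PE.no_chain_span E.f E.φ hφ E.cl E.cl_φ E.cl_smul hn h1 h2
  have key : ∀ α, E.f.maxGenEigenspace α = E.f.eigenspace α :=
    fun α => PE.main X hp E.f E.comm hQK E.B_f hfN hN hm hFT α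
  refine ⟨key, ?_⟩
  rw [← E.f.iSup_maxGenEigenspace_eq_top]
  exact iSup_congr fun α => (key α).symm

end Pool.Agent.Results.MP_e95b71_ag.OrdinaryK3Surfaces
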